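import Pool.Agent.Helper97.Csq.Defs

namespace Pool.Agent.Helper97.Csq

open Cardinal Ordinal Set Order

theorem bddAbove_Iio (α : Ordinal.{0}) {A : Set Ordinal.{0}} (h : A ⊆ Iio α) : BddAbove A :=
  ⟨α, fun _ hx => (h hx).le⟩

/-- `sSup (A ∩ Iio β) = β` in elementary terms. -/
theorem eq_sSup_iff (A : Set Ordinal.{0}) (β : Ordinal.{0}) :
    β = sSup (A ∩ Iio β) ↔ ∀ ξ < β, ∃ η ∈ A, ξ < η ∧ η < β := by
  have hb : BddAbove (A ∩ Iio β) := bddAbove_Iio β inter_subset_right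
  constructor
  · intro h ξ hξ
    rw [h] at hξ
    obtain ⟨η, hη, h2⟩ := (lt_csSup_iff' hb).1 hξ
    exact ⟨η, hη.1, h2, hη.2⟩
  · intro h
    apply le_antisymm
    · by_contra hlt
      push Not at hlt
      obtain ⟨η, hη, h1, h2⟩ := h _ hlt
      exact absurd (le_csSup hb ⟨hη, h2⟩) (not_le.2 h1)
    · exact csSup_le' fun x hx => (le_of_lt hx.2)

theorem mem_acc {A : Set Ordinal.{0}} {δ : Ordinal.{0}} (hA : A ⊆ Iio δ) {β : Ordinal.{0}} :
    β ∈ acc A ↔ (∃ α ∈ A, β ≤ α) ∧ ∀ ξ < β, ∃ η ∈ A, ξ < η ∧ η < β := by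
  have hb : BddAbove ((fun α : Ordinal.{0} => α + 1) '' A) :=
    ⟨δ, by
      rintro _ ⟨x, hx, rfl⟩
      exact Order.add_one_le_of_lt (hA hx)⟩
  unfold acc
  rw [mem_ofPred_eq, eq_sSup_iff, lt_csSup_iff' hb]
  simp only [mem_image, exists_exists_and_eq_and, Order.lt_add_one_iff]

/-- Clubs in elementary terms. -/
theorem clubIn_iff {δ : Ordinal.{0}} {C : Set Ordinal.{0}} :
    ClubIn δ C ↔ C ⊆ Iio δ ∧ (∀ ξ < δ, ∃ η ∈ C, ξ ≤ η) ∧
      ∀ β < δ, β ≠ 0 → (∀ ξ < β, ∃ η ∈ C, ξ < η ∧ η < β) → β ∈ C := by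
  unfold ClubIn
  rw [isClub_iff]
  refine and_congr_right fun hC => ?_
  constructor
  · rintro ⟨h1, h2⟩
    refine ⟨fun ξ hξ => ?_, fun β hβ h0 hlim => ?_⟩
    · obtain ⟨y, hy, hle⟩ := h2 ⟨ξ, hξ⟩
      exact ⟨y.1, hy, hle⟩
    · have key := @h1 ({x : Iio δ | x.1 ∈ C ∧ x.1 < β}) (fun x hx => hx.1) (by
        obtain ⟨η, hη, _, h3⟩ := hlim 0 (pos_iff_ne_zero.2 h0)
        exact ⟨⟨η, h3.trans hβ⟩, hη, h3⟩) (DirectedOn.of_linearOrder _) ⟨β, hβ⟩ (by
        constructor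
        · intro x hx
          exact hx.2.le
        · intro y hy
          by_contra hlt
          push Not at hlt
          obtain ⟨η, hη, h3, h4⟩ := hlim y.1 hlt
          have := hy (show (⟨η, h4.trans hβ⟩ : Iio δ) ∈ _ from ⟨hη, h4⟩)
          exact absurd this (not_le.2 h3))
      exact key
  · rintro ⟨h1, h2⟩
    refine ⟨?_, ?_⟩
    · intro d hd hne _ a ha
      by_cases had : a ∈ d
      · exact hd had
      · refine h2 a.1 a.2 ?_ ?_
        · obtain ⟨x, hx⟩ := hne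
          have : x < a := lt_of_le_of_ne (ha.1 hx) (fun h => had (h ▸ hx))
          intro h0
          exact absurd (show x.1 < 0 from h0 ▸ this) (by simp)
        · intro ξ hξ
          by_contra hcon
          push Not at hcon
          have : a ≤ ⟨ξ, hξ.trans a.2⟩ := ha.2 (by
            intro x hx
            have hxa : x < a := lt_of_le_of_ne (ha.1 hx) (fun h => had (h ▸ hx))
            by_contra hlt
            push Not at hlt
            exact absurd (hcon x.1 (hd hx) hlt) (not_le.2 hxa))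
          exact absurd this (not_le.2 hξ)
    · intro x
      obtain ⟨η, hη, hle⟩ := h1 x.1 x.2
      exact ⟨⟨η, hC hη⟩, hη, hle⟩

theorem statIn_iff {δ : Ordinal.{0}} {S : Set Ordinal.{0}} :
    StatIn δ S ↔ S ⊆ Iio δ ∧ ∀ E, ClubIn δ E → ∃ β ∈ S, β ∈ E := by
  unfold StatIn
  refine and_congr_right fun hS => ?_
  constructor
  · intro h E hE
    obtain ⟨x, hx1, hx2⟩ := h hE.2
    exact ⟨x.1, hx1, hx2⟩
  · intro h t ht
    obtain ⟨β, h1, h2⟩ := h (Subtype.val '' t) ⟨by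
      rintro _ ⟨x, _, rfl⟩
      exact x.2, by
      rwa [preimage_image_eq _ Subtype.val_injective]⟩
    obtain ⟨x, hx, rfl⟩ := h2
    exact ⟨x, h1, hx⟩

/-- Bounding families of size less than the cofinality. -/
theorem bnd {ι : Type 1} (f : ι → Ordinal.{0}) (δ : Ordinal.{0})
    (hι : #ι < Cardinal.lift.{1} δ.cof) (hf : ∀ i, f i < δ) : ∃ h < δ, ∀ i, f i ≤ h := by
  refine ⟨⨆ i, f i, ?_, fun i => ?_⟩
  · apply Ordinal.lift_iSup_lt_of_lt_cof _ hf
    rw [← Ordinal.lift_cof]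
    simpa using hι
  · exact le_ciSup (f := f) ⟨δ, by rintro _ ⟨j, rfl⟩; exact (hf j).le⟩ i

/-- Bounding with a strict bound, for limit `δ`. -/
theorem bnd' {ι : Type 1} (f : ι → Ordinal.{0}) (δ : Ordinal.{0})
    (hι : #ι < Cardinal.lift.{1} δ.cof) (hlim : ∀ ξ < δ, ξ + 1 < δ) (hf : ∀ i, f i < δ) :
    ∃ h < δ, ∀ i, f i < h := by
  obtain ⟨h, h1, h2⟩ := bnd f δ hι hf
  exact ⟨h + 1, hlim h h1, fun i => Order.lt_add_one_iff.2 (h2 i)⟩

/-- If `cof δ > ℵ₀` then `δ` is a limit. -/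
theorem succ_lt_of_cof {δ : Ordinal.{0}} (h : ℵ₀ ≤ δ.cof) : ∀ ξ < δ, ξ + 1 < δ := by
  intro ξ hξ
  have h1 : IsSuccLimit δ := by
    rw [aleph0_le_cof_iff, one_lt_cof_iff] at h
    exact h
  have := h1.succ_lt hξ
  rwa [Order.succ_eq_add_one] at this

/-- The limit points of a club in `δ` beyond `ζ` form a club when `cof δ > ℵ₀`. -/
theorem clubIn_acc {δ : Ordinal.{0}} (hδ : ℵ₀ < δ.cof) {E : Set Ordinal.{0}} (hE : ClubIn δ E)
    {ζ : Ordinal.{0}} (hζ : ζ < δ) : ClubIn δ {β | β ∈ acc E ∧ β < δ ∧ ζ < β} := by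
  rw [clubIn_iff] at hE
  obtain ⟨h1, h2, h3⟩ := hE
  have hlim := succ_lt_of_cof hδ.le
  rw [clubIn_iff]
  refine ⟨fun β hβ => hβ.2.1, ?_, ?_⟩
  · intro ξ hξ
    -- build an increasing sequence in E
    have hstep : ∀ x : Iio δ, ∃ y : Iio δ, y.1 ∈ E ∧ x < y := by
      intro x
      obtain ⟨η, hη, hle⟩ := h2 (x.1 + 1) (hlim _ x.2)
      exact ⟨⟨η, h1 hη⟩, hη, show x.1 < η from lt_of_lt_of_le (Order.lt_add_one_iff.2 le_rfl) hle⟩
    choose g hg1 hg2 using hstep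
    let s : ℕ → Iio δ := fun n => g^[n+1] ⟨max ξ ζ, max_lt hξ hζ⟩
    have hs0 : ∀ n, s (n+1) = g (s n) := fun n => Function.iterate_succ_apply' g (n+1) _
    have hsE : ∀ n, (s n).1 ∈ E := by
      intro n
      have : s n = g (g^[n] ⟨max ξ ζ, max_lt hξ hζ⟩) := Function.iterate_succ_apply' g n _
      rw [this]
      exact hg1 _
    have hslt : ∀ n, s n < s (n+1) := by
      intro n
      rw [hs0]
      exact hg2 _
    have hb : ∀ n, max ξ ζ < (s n).1 := by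
      intro n
      induction n with
      | zero => exact hg2 ⟨max ξ ζ, max_lt hξ hζ⟩
      | succ n ih => exact ih.trans (hslt n)
    obtain ⟨b, hbδ, hbn⟩ := bnd (ι := ULift.{1} ℕ) (fun n => (s n.down).1) δ (by
        rw [Cardinal.mk_uLift, Cardinal.lift_lt, Cardinal.mk_nat]; exact hδ)
      (fun n => (s n.down).2)
    let β := ⨆ n : ℕ, (s n).1
    have hbdd : BddAbove (range fun n : ℕ => (s n).1) := ⟨b, by rintro _ ⟨n, rfl⟩; exact hbn ⟨n⟩⟩
    have hβδ : β < δ := lt_of_le_of_lt (ciSup_le' fun n => hbn ⟨n⟩) hbδ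
    have hlt : ∀ n, (s n).1 < β := fun n => lt_of_lt_of_le (hslt n) (le_ciSup hbdd (n+1))
    refine ⟨β, ⟨?_, hβδ, (le_max_right _ _).trans_lt ((hb 0).trans (hlt 0))⟩,
      ((le_max_left _ _).trans_lt ((hb 0).trans (hlt 0))).le⟩
    rw [mem_acc h1]
    refine ⟨?_, ?_⟩
    · obtain ⟨η, hη, hle⟩ := h2 β hβδ
      exact ⟨η, hη, hle⟩
    · intro x hx
      obtain ⟨n, hn⟩ := (lt_ciSup_iff' hbdd).1 hx
      exact ⟨_, hsE n, hn, hlt n⟩
  · intro β hβ h0 hl
    obtain ⟨η, hη, _, h5⟩ := hl 0 (pos_iff_ne_zero.2 h0)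
    refine ⟨?_, hβ, hη.2.2.trans h5⟩
    rw [mem_acc h1]
    refine ⟨?_, ?_⟩
    · obtain ⟨η, hη, hle⟩ := h2 β hβ
      exact ⟨η, hη, hle⟩
    · intro ξ hξ
      obtain ⟨η, hη, h6, h7⟩ := hl ξ hξ
      have := (mem_acc h1).1 hη.1
      obtain ⟨θ, hθ, h8, h9⟩ := this.2 ξ h6
      exact ⟨θ, hθ, h8, h9.trans h7⟩

/-- A stationary subset of `δ` (`cof δ > ℵ₀`) meets the limit points of a club beyond `ζ`. -/
theorem StatIn.exists_acc {δ : Ordinal.{0}} (hδ : ℵ₀ < δ.cof) {X E : Set Ordinal.{0}}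
    (hX : StatIn δ X) (hE : ClubIn δ E) {ζ : Ordinal.{0}} (hζ : ζ < δ) :
    ∃ β ∈ X, β ∈ acc E ∧ ζ < β ∧ β < δ := by
  obtain ⟨β, h1, h2⟩ := (statIn_iff.1 hX).2 _ (clubIn_acc hδ hE hζ)
  exact ⟨β, h1, h2.1, h2.2.2, h2.2.1⟩

theorem StatIn.mono {δ : Ordinal.{0}} {X Y : Set Ordinal.{0}} (hX : StatIn δ X) (h : X ⊆ Y)
    (hY : Y ⊆ Iio δ) : StatIn δ Y := by
  rw [statIn_iff] at hX ⊢
  refine ⟨hY, fun E hE => ?_⟩
  obtain ⟨β, h1, h2⟩ := hX.2 E hE
  exact ⟨β, h h1, h2⟩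

theorem exists_club_of_not_stat {δ : Ordinal.{0}} {X : Set Ordinal.{0}} (hX : X ⊆ Iio δ)
    (h : ¬ StatIn δ X) : ∃ E, ClubIn δ E ∧ ∀ β ∈ X, β ∉ E := by
  rw [statIn_iff] at h
  push Not at h
  exact h hX

/-- Clubs are closed under restriction to accumulation points. -/
theorem acc_inter_Iio {δ : Ordinal.{0}} {E : Set Ordinal.{0}} (hE : E ⊆ Iio δ)
    {β : Ordinal.{0}} (hβ : β ∈ acc E) {α : Ordinal.{0}} :
    α ∈ acc (E ∩ Iio β) ↔ α ∈ acc E ∧ α < β := by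
  rw [mem_acc (δ := δ) (fun x hx => hE hx.1), mem_acc hE]
  have hβ' := (mem_acc hE).1 hβ
  constructor
  · rintro ⟨⟨x, hx, hle⟩, h2⟩
    exact ⟨⟨⟨x, hx.1, hle⟩, fun ξ hξ => by
      obtain ⟨η, hη, h3, h4⟩ := h2 ξ hξ
      exact ⟨η, hη.1, h3, h4⟩⟩, lt_of_le_of_lt hle hx.2⟩
  · rintro ⟨⟨⟨x, hx, hle⟩, h2⟩, hlt⟩
    refine ⟨?_, ?_⟩
    · obtain ⟨η, hη, h3, h4⟩ := hβ'.2 α hlt
      exact ⟨η, ⟨hη, h4⟩, h3.le⟩
    · intro ξ hξ
      obtain ⟨η, hη, h3, h4⟩ := h2 ξ hξ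
      exact ⟨η, ⟨hη, h4.trans hlt⟩, h3, h4⟩

section Lam

variable {κ : Cardinal.{0}}

/-- In `κ⁺`: stationary sets meet intersections of at most `κ` clubs, beyond any bound. -/
theorem StatIn.exists_inter (hκ : ℵ₀ ≤ κ) {S : Set Ordinal.{0}}
    (hS : StatIn (succ κ).ord S) {ι : Type 1} (hι : #ι ≤ Cardinal.lift.{1} κ)
    (E : ι → Set Ordinal.{0}) (hE : ∀ i, ClubIn (succ κ).ord (E i)) {ζ : Ordinal.{0}}
    (hζ : ζ < (succ κ).ord) : ∃ β ∈ S, ζ < β ∧ ∀ i, β ∈ E i := by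
  have hreg : (succ κ).IsRegular := isRegular_succ hκ
  have hcof : (succ κ).ord.cof = succ κ := hreg.cof_ord
  have hκ' : κ < succ κ := Order.lt_succ κ
  have hcofI : Order.cof (Iio (succ κ).ord) = Cardinal.lift.{1} (succ κ) := by
    rw [Ordinal.cof_Iio, ← Ordinal.lift_cof, hcof]
  have hne : Order.cof (Iio (succ κ).ord) ≠ ℵ₀ := by
    rw [hcofI]
    have : ℵ₀ < Cardinal.lift.{1} (succ κ) := by
      rw [Cardinal.aleph0_lt_lift]
      exact lt_of_le_of_lt hκ hκ'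
    exact this.ne'
  have hclub : IsClub (⋂ i : Option ι, (match i with
      | none => (Ioi (⟨ζ, hζ⟩ : Iio (succ κ).ord))
      | some i => (Subtype.val ⁻¹' (E i) : Set (Iio (succ κ).ord)))) := by
    apply IsClub.iInter hne
    · rw [hcofI, Cardinal.lift_id, Cardinal.lift_id, Cardinal.mk_option]
      calc #ι + 1 ≤ Cardinal.lift.{1} κ + 1 := by gcongr
        _ ≤ Cardinal.lift.{1} κ + Cardinal.lift.{1} κ := by
            gcongr
            rw [← Cardinal.lift_one.{0, 1}, Cardinal.lift_le]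
            exact one_le_aleph0.trans hκ
        _ = Cardinal.lift.{1} κ := by
            rw [← Cardinal.lift_add, Cardinal.add_eq_self hκ]
        _ < _ := by
            rw [Cardinal.lift_lt]
            exact hκ'
    · intro i
      match i with
      | some i => exact (hE i).2
      | none =>
        refine ⟨?_, ?_⟩
        · intro d hd hdne _ a ha
          obtain ⟨x, hx⟩ := hdne
          exact lt_of_lt_of_le (hd hx) (ha.1 hx)
        · intro x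
          have hlim := succ_lt_of_cof (δ := (succ κ).ord) (by rw [hcof]; exact hreg.aleph0_le)
          refine ⟨⟨max x.1 ζ + 1, hlim _ (max_lt x.2 hζ)⟩, ?_, ?_⟩
          · show ζ < max x.1 ζ + 1
            exact Order.lt_add_one_iff.2 (le_max_right _ _)
          · show x.1 ≤ max x.1 ζ + 1
            exact (Order.lt_add_one_iff.2 (le_max_left _ _)).le
  obtain ⟨x, hx1, hx2⟩ := hS.2 hclub
  rw [mem_iInter] at hx2
  refine ⟨x.1, hx1, hx2 none, fun i => hx2 (some i)⟩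

/-- The number of ordinals below an element of `κ⁺`. -/
theorem mk_Iio_le {β : Ordinal.{0}} (hβ : β < (succ κ).ord) :
    #(Iio β) ≤ Cardinal.lift.{1} κ := by
  rw [Cardinal.mk_Iio_ordinal, Cardinal.lift_le]
  rw [Cardinal.lt_ord] at hβ
  exact Order.lt_succ_iff.1 hβ

/-- An ordinal of prescribed regular cofinality `μ ≤ κ`, closed under a given function. -/
theorem exists_closed (hκ : ℵ₀ ≤ κ) {μ : Cardinal.{0}} (hμ : μ.IsRegular) (hμκ : μ ≤ κ)
    (G : Ordinal.{0} → Ordinal.{0}) (hG : ∀ ζ < (succ κ).ord, G ζ < (succ κ).ord)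
    {β₀ : Ordinal.{0}} (hβ₀ : β₀ < (succ κ).ord) :
    ∃ δ < (succ κ).ord, β₀ < δ ∧ δ.cof = μ ∧ ∀ ζ < δ, G ζ < δ := by
  have hreg : (succ κ).IsRegular := isRegular_succ hκ
  have hcof : (succ κ).ord.cof = succ κ := hreg.cof_ord
  have hlim := succ_lt_of_cof (δ := (succ κ).ord) (by rw [hcof]; exact hreg.aleph0_le)
  -- a monotone majorant
  have hmaj : ∀ ζ : Iio (succ κ).ord, ∃ z : Iio (succ κ).ord, ζ < z ∧ ∀ ξ ≤ ζ.1, G ξ < z.1 := by
    intro ζ
    obtain ⟨h, h1, h2⟩ := bnd' (ι := Iio (ζ.1 + 1)) (fun ξ => max (G ξ.1) ζ.1) (succ κ).ord (by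
      rw [hcof]
      exact lt_of_le_of_lt (mk_Iio_le (hlim _ ζ.2)) (by
        rw [Cardinal.lift_lt]
        exact Order.lt_succ κ)) hlim (fun ξ => max_lt (hG _ (lt_of_lt_of_le ξ.2 (hlim _ ζ.2).le)) ζ.2)
    refine ⟨⟨h, h1⟩, ?_, ?_⟩
    · show ζ.1 < h
      exact lt_of_le_of_lt (le_max_right _ _) (h2 ⟨ζ.1, mem_Iio.2 (Order.lt_add_one_iff.2 le_rfl)⟩)
    · intro ξ hξ
      exact lt_of_le_of_lt (le_max_left _ _) (h2 ⟨ξ, Order.lt_add_one_iff.2 hξ⟩)
  choose z hz1 hz2 using hmaj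
  -- the recursion along `μ`
  have hrec : ∀ (i : μ.ord.ToType) (f : (j : μ.ord.ToType) → j < i → Iio (succ κ).ord),
      ∃ y : Iio (succ κ).ord, β₀ < y.1 ∧ ∀ j hj, (z (f j hj)) < y := by
    intro i f
    obtain ⟨h, h1, h2⟩ := bnd' (ι := ULift.{1} (Option (Iio i)))
      (fun o => match o.down with
        | none => β₀
        | some j => (z (f j.1 j.2)).1) (succ κ).ord (by
          rw [hcof, Cardinal.mk_uLift, Cardinal.lift_lt, Cardinal.mk_option]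
          calc #(Iio i) + 1 ≤ κ + κ := by
                gcongr
                · exact (Cardinal.mk_set_le _).trans (by rw [Cardinal.mk_ord_toType]; exact hμκ)
                · exact one_le_aleph0.trans hκ
            _ = κ := Cardinal.add_eq_self hκ
            _ < _ := Order.lt_succ κ) hlim (by
          rintro ⟨o⟩
          match o with
          | none => exact hβ₀
          | some j => exact (z (f j.1 j.2)).2)
    exact ⟨⟨h, h1⟩, h2 ⟨none⟩, fun j hj => h2 ⟨some ⟨j, hj⟩⟩⟩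
  choose nx hnx1 hnx2 using hrec
  let f : μ.ord.ToType → Iio (succ κ).ord := fun i =>
    WellFounded.fix (C := fun _ => Iio (succ κ).ord) (wellFounded_lt (α := μ.ord.ToType)) nx i
  have hf : ∀ i, f i = nx i (fun j _ => f j) := fun i => WellFounded.fix_eq _ _ _
  have hfz : ∀ i j, j < i → z (f j) < f i := by
    intro i j hj
    conv_rhs => rw [hf i]
    exact hnx2 i (fun j _ => f j) j hj
  have hmono : StrictMono (fun i => (f i).1) := by
    intro j i hj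
    exact (hz1 (f j)).trans (hfz i j hj)
  have hμ0 : 0 < μ.ord := by
    rw [Cardinal.lt_ord, Ordinal.card_zero]
    exact lt_of_lt_of_le Cardinal.aleph0_pos hμ.aleph0_le
  have hlimμ : IsSuccLimit μ.ord := isSuccLimit_ord hμ.aleph0_le
  have : NoMaxOrder μ.ord.ToType := by
    rw [← isSuccPrelimit_type_lt_iff, type_toType]
    exact hlimμ.isSuccPrelimit
  have : Nonempty μ.ord.ToType := by
    rw [← not_isEmpty_iff, isEmpty_toType_iff]
    exact hμ0.ne'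
  let δ : Ordinal.{0} := ⨆ i, (f i).1
  have hcofδ : δ.cof = μ := by
    have := Ordinal.cof_iSup (f := fun i => (f i).1) hmono
    rw [Ordinal.cof_toType, hμ.cof_ord] at this
    exact this
  obtain ⟨b, hb1, hb2⟩ := bnd (ι := ULift.{1} μ.ord.ToType) (fun i => (f i.down).1) (succ κ).ord (by
    rw [hcof, Cardinal.mk_uLift, Cardinal.lift_lt, Cardinal.mk_ord_toType]
    exact lt_of_le_of_lt hμκ (Order.lt_succ κ)) (fun i => (f i.down).2)
  have hbdd : BddAbove (range fun i => (f i).1) := ⟨b, by rintro _ ⟨i, rfl⟩; exact hb2 ⟨i⟩⟩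
  refine ⟨δ, lt_of_le_of_lt (ciSup_le' fun i => hb2 ⟨i⟩) hb1, ?_, hcofδ, ?_⟩
  · obtain ⟨i⟩ := ‹Nonempty μ.ord.ToType›
    refine lt_of_lt_of_le ?_ (le_ciSup hbdd i)
    show β₀ < (f i).1
    rw [hf i]
    exact hnx1 i _
  · intro ζ hζ
    obtain ⟨i, hi⟩ := (lt_ciSup_iff' hbdd).1 hζ
    obtain ⟨i', hi'⟩ := exists_gt i
    calc G ζ < (z (f i)).1 := hz2 (f i) ζ hi.le
      _ < (f i').1 := hfz i' i hi'
      _ ≤ δ := le_ciSup hbdd i'

end Lam

end Pool.Agent.Helper97.Csq
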