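import Mathlib

/-!
Definitions for MP_ace702_lc: coherent sequences of clubs, threads, `□(lam, < η)`, stationary
reflection.  Club and stationary are Mathlib's notions `IsClub`, `IsStationary` on `Set.Iio α`.
-/

namespace Pool.Agent.Helper97.Csq

open Cardinal Ordinal Set

/-- `acc A`: the ordinals `β < sup {α + 1 | α ∈ A}` with `β = sup (A ∩ β)`. -/
def acc (A : Set Ordinal.{0}) : Set Ordinal.{0} :=
  {β | β < sSup ((fun α => α + 1) '' A) ∧ β = sSup (A ∩ Iio β)}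

/-- `C` is a club in `α`. -/
def ClubIn (α : Ordinal.{0}) (C : Set Ordinal.{0}) : Prop :=
  C ⊆ Iio α ∧ IsClub (Subtype.val ⁻¹' C : Set (Iio α))

/-- `S` is a stationary subset of `α`. -/
def StatIn (α : Ordinal.{0}) (S : Set Ordinal.{0}) : Prop :=
  S ⊆ Iio α ∧ IsStationary (Subtype.val ⁻¹' S : Set (Iio α))

/-- `𝒞` is a coherent sequence of length `lam` and width `< η`. -/
def Coherent (lam : Ordinal.{0}) (η : Cardinal.{1}) (𝒞 : Ordinal.{0} → Set (Set Ordinal.{0})) :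
    Prop :=
  (∀ α < lam, (𝒞 α).Nonempty ∧ (∀ C ∈ 𝒞 α, ClubIn α C) ∧ #(𝒞 α) < η) ∧
  ∀ β < lam, ∀ C ∈ 𝒞 β, ∀ α ∈ acc C, C ∩ Iio α ∈ 𝒞 α

/-- `D` is a thread through `𝒞`. -/
def Thread (lam : Ordinal.{0}) (𝒞 : Ordinal.{0} → Set (Set Ordinal.{0})) (D : Set Ordinal.{0}) :
    Prop :=
  ClubIn lam D ∧ ∀ α ∈ acc D, D ∩ Iio α ∈ 𝒞 α

/-- `□(lam, < η)`. -/
def Square (lam : Ordinal.{0}) (η : Cardinal.{1}) : Prop :=
  ∃ 𝒞, Coherent lam η 𝒞 ∧ ¬ ∃ D, Thread lam 𝒞 D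

/-- `Refl(< η, S)` for `S ⊆ lam`: every family of fewer than `η` stationary subsets of `S`
reflects at a common ordinal below `lam`, of uncountable cofinality. -/
def Refl (lam : Ordinal.{0}) (η : Cardinal.{1}) (S : Set Ordinal.{0}) : Prop :=
  ∀ F : Set (Set Ordinal.{0}), #F < η → (∀ X ∈ F, X ⊆ S ∧ StatIn lam X) →
    ∃ α < lam, ℵ₀ < α.cof ∧ ∀ X ∈ F, StatIn α (X ∩ Iio α)

end Pool.Agent.Helper97.Csq
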