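import Pool.Agent.Helper97.Csq.Basic

namespace Pool.Agent.Helper97.Csq

open Cardinal Ordinal Set Order

/-- Step 1: without a thread, for all large `α` and all `C ∈ 𝒞 α` there are stationarily many
`β ∈ S` such that no element of `𝒞 β` continues `C`. -/
theorem step1 {κ : Cardinal.{0}} {𝒞 : Ordinal.{0} → Set (Set Ordinal.{0})}
    (hκ : κ.IsRegular) (hκ0 : ℵ₀ < κ)
    (hC : Coherent (succ κ).ord (Cardinal.lift.{1} κ) 𝒞)
    (hT : ¬ ∃ D, Thread (succ κ).ord 𝒞 D) {S : Set Ordinal.{0}}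
    (hS : StatIn (succ κ).ord S) :
    ∃ γ₀ < (succ κ).ord, ∀ α, γ₀ < α → α < (succ κ).ord → ∀ C ∈ 𝒞 α,
      StatIn (succ κ).ord {β | β ∈ S ∧ ¬ ∃ D ∈ 𝒞 β, α ∈ acc D ∧ D ∩ Iio α = C} := by
  classical
  by_contra hcon
  push Not at hcon
  have hreg : (succ κ).IsRegular := isRegular_succ hκ.aleph0_le
  have hcof : (succ κ).ord.cof = succ κ := hreg.cof_ord
  have hlim := succ_lt_of_cof (δ := (succ κ).ord) (by rw [hcof]; exact hreg.aleph0_le)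
  have hSl : S ⊆ Iio (succ κ).ord := hS.1
  have h0 : (0 : Ordinal.{0}) < (succ κ).ord := by
    rw [Cardinal.lt_ord, Ordinal.card_zero]
    exact lt_of_lt_of_le Cardinal.aleph0_pos hreg.aleph0_le
  obtain ⟨hC1, hC2⟩ := hC
  let A : Set Ordinal.{0} := {α | α < (succ κ).ord ∧ ∃ C ∈ 𝒞 α,
    ¬ StatIn (succ κ).ord {β | β ∈ S ∧ ∀ D ∈ 𝒞 β, α ∈ acc D → D ∩ Iio α ≠ C}}
  have hA : ∀ γ < (succ κ).ord, ∃ α ∈ A, γ < α := by
    intro γ hγ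
    obtain ⟨α, h1, h2, C, h3, h4⟩ := hcon γ hγ
    exact ⟨α, ⟨h2, C, h3, h4⟩, h1⟩
  have hch : ∀ α, ∃ C E : Set Ordinal.{0}, α ∈ A → C ∈ 𝒞 α ∧ ClubIn (succ κ).ord E ∧
      ∀ β ∈ S, β ∈ E → ∃ D ∈ 𝒞 β, α ∈ acc D ∧ D ∩ Iio α = C := by
    intro α
    by_cases hα : α ∈ A
    · obtain ⟨_, C, h3, h4⟩ := hα
      obtain ⟨E, hE1, hE2⟩ := exists_club_of_not_stat (fun β hβ => hSl hβ.1) h4
      refine ⟨C, E, fun _ => ⟨h3, hE1, fun β hβ hβE => ?_⟩⟩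
      by_contra hn
      push Not at hn
      exact hE2 β ⟨hβ, hn⟩ hβE
    · exact ⟨∅, ∅, fun h => absurd h hα⟩
  choose Cf E hCE using hch
  -- (i)
  have hi : ∀ β' < (succ κ).ord, ∃ β ∈ S, β' < β ∧ ∀ α ∈ A, α < β' →
      ∃ D ∈ 𝒞 β, α ∈ acc D ∧ D ∩ Iio α = Cf α := by
    intro β' hβ'
    obtain ⟨β, hβ, h1, h2⟩ := hS.exists_inter hκ.aleph0_le
      (ι := {α : Ordinal.{0} // α ∈ A ∧ α < β'})
      ((Cardinal.mk_subtype_le_of_subset (fun x hx => hx.2)).trans (mk_Iio_le hβ'))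
      (fun α => E α.1) (fun α => (hCE α.1 α.2.1).2.1) hβ'
    exact ⟨β, hβ, h1, fun α hα hαβ => (hCE α hα).2.2 β hβ (h2 ⟨α, hα, hαβ⟩)⟩
  let Good : Ordinal.{0} → Set Ordinal.{0} → Prop := fun β' D => D ∈ 𝒞 β' ∧
    ∀ ξ < β', ∃ α ∈ A, ξ < α ∧ α < β' ∧ α ∈ acc D ∧ D ∩ Iio α = Cf α
  -- (ii)
  let P : Ordinal.{0} → Ordinal.{0} → Prop := fun h β' => h < β' ∧
    (∀ α ∈ A, h ≤ α → α < β' → ∃ D, Good β' D ∧ α ∈ acc D ∧ D ∩ Iio α = Cf α) ∧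
    (∀ D ∈ 𝒞 β', ∀ D' ∈ 𝒞 β', D ∩ Iio h = D' ∩ Iio h → D = D')
  have hii : ∀ β' < (succ κ).ord, β'.cof = κ → ∃ h, P h β' := by
    intro β' hβ' hcβ
    have hlimβ := succ_lt_of_cof (δ := β') (by rw [hcβ]; exact hκ0.le)
    have hpos : 0 < β' := by
      rw [← Ordinal.cof_pos, hcβ]
      exact lt_trans Cardinal.aleph0_pos hκ0
    obtain ⟨β, hβ, hβ'β, hβA⟩ := hi β' hβ'
    have hβl : β < (succ κ).ord := hSl hβ
    obtain ⟨_, hcl, hcard⟩ := hC1 β hβl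
    have hD : ∀ D : 𝒞 β, ∃ h < β', (∀ ξ < β', ∃ α ∈ A, ξ < α ∧ α < β' ∧ α ∈ acc D.1 ∧
        D.1 ∩ Iio α = Cf α) ∨ (∀ α ∈ A, h ≤ α → α < β' → ¬ (α ∈ acc D.1 ∧ D.1 ∩ Iio α = Cf α)) := by
      intro D
      by_cases hu : ∀ ξ < β', ∃ α ∈ A, ξ < α ∧ α < β' ∧ α ∈ acc D.1 ∧ D.1 ∩ Iio α = Cf α
      · exact ⟨0, hpos, Or.inl hu⟩
      · push Not at hu
        obtain ⟨ξ, hξ, h2⟩ := hu
        refine ⟨ξ + 1, hlimβ ξ hξ, Or.inr fun α hα h3 h4 h5 => ?_⟩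
        exact h2 α hα (lt_of_lt_of_le (Order.lt_add_one_iff.2 le_rfl) h3) h4 h5.1 h5.2
    choose hd hd1 hd2 using hD
    obtain ⟨h₁, hh1, hh1'⟩ := bnd hd β' (by rw [hcβ]; exact hcard) hd1
    obtain ⟨_, hcl', hcard'⟩ := hC1 β' hβ'
    have hp : ∀ p : 𝒞 β' × 𝒞 β', ∃ h < β', p.1.1 ∩ Iio h = p.2.1 ∩ Iio h → p.1.1 = p.2.1 := by
      intro p
      by_cases hpe : p.1.1 = p.2.1
      · exact ⟨0, hpos, fun _ => hpe⟩
      · have : ∃ x, ¬ (x ∈ p.1.1 ↔ x ∈ p.2.1) := by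
          by_contra hno
          push Not at hno
          exact hpe (Set.ext hno)
        obtain ⟨x, hx⟩ := this
        have hxβ : x < β' := by
          by_contra hge
          push Not at hge
          apply hx
          constructor
          · intro h
            exact absurd ((hcl' _ p.1.2).1 h) (not_lt.2 hge)
          · intro h
            exact absurd ((hcl' _ p.2.2).1 h) (not_lt.2 hge)
        refine ⟨x + 1, hlimβ x hxβ, fun heq => absurd ?_ hx⟩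
        have h1 := Set.ext_iff.1 heq x
        have h2 : x ∈ Iio (x + 1) := mem_Iio.2 (Order.lt_add_one_iff.2 le_rfl)
        constructor
        · intro h
          exact (h1.1 ⟨h, h2⟩).1
        · intro h
          exact (h1.2 ⟨h, h2⟩).1
    choose hq hq1 hq2 using hp
    obtain ⟨h₂, hh2, hh2'⟩ := bnd hq β' (by
      rw [hcβ, Cardinal.mk_prod, Cardinal.lift_id]
      exact Cardinal.mul_lt_of_lt (by rw [Cardinal.aleph0_le_lift]; exact hκ0.le) hcard' hcard') hq1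
    refine ⟨max h₁ h₂, max_lt hh1 hh2, ?_, ?_⟩
    · intro α hα hle hlt
      obtain ⟨D, hD, hαD, hDα⟩ := hβA α hα hlt
      have hDcl := hcl D hD
      rcases hd2 ⟨D, hD⟩ with hu | hu
      · have hβacc : β' ∈ acc D := by
          rw [mem_acc hDcl.1]
          refine ⟨?_, fun ξ hξ => ?_⟩
          · obtain ⟨η, hη, hle⟩ := (clubIn_iff.1 hDcl).2.1 β' hβ'β
            exact ⟨η, hη, hle⟩
          · obtain ⟨α', _, h2, h3, h4, _⟩ := hu ξ hξ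
            obtain ⟨η, hη, h6, h7⟩ := ((mem_acc hDcl.1).1 h4).2 ξ h2
            exact ⟨η, hη, h6, h7.trans h3⟩
        have hint : ∀ α', α' < β' → (D ∩ Iio β') ∩ Iio α' = D ∩ Iio α' := by
          intro α' hα'
          rw [inter_assoc, Iio_inter_Iio, min_eq_right hα'.le]
        refine ⟨D ∩ Iio β', ⟨hC2 β hβl D hD β' hβacc, fun ξ hξ => ?_⟩, ?_, ?_⟩
        · obtain ⟨α', h1, h2, h3, h4, h5⟩ := hu ξ hξ
          exact ⟨α', h1, h2, h3, (acc_inter_Iio hDcl.1 hβacc).2 ⟨h4, h3⟩, by rw [hint _ h3, h5]⟩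
        · exact (acc_inter_Iio hDcl.1 hβacc).2 ⟨hαD, hlt⟩
        · rw [hint _ hlt, hDα]
      · exact absurd ⟨hαD, hDα⟩ (hu α hα (((hh1' ⟨D, hD⟩).trans (le_max_left _ _)).trans hle) hlt)
    · intro D hD D' hD' heq
      apply hq2 (⟨D, hD⟩, ⟨D', hD'⟩)
      have hle : hq (⟨D, hD⟩, ⟨D', hD'⟩) ≤ max h₁ h₂ := (hh2' _).trans (le_max_right _ _)
      have : ∀ X : Set Ordinal.{0}, X ∩ Iio (hq (⟨D, hD⟩, ⟨D', hD'⟩)) =
          (X ∩ Iio (max h₁ h₂)) ∩ Iio (hq (⟨D, hD⟩, ⟨D', hD'⟩)) := by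
        intro X
        rw [inter_assoc, Iio_inter_Iio, min_eq_right hle]
      show D ∩ _ = D' ∩ _
      rw [this D, this D', heq]
  -- (iii)
  have hiii : ∃ h < (succ κ).ord, ∀ g < (succ κ).ord, ∃ β', g < β' ∧ β' < (succ κ).ord ∧ P h β' := by
    by_contra hno
    push Not at hno
    have : ∀ h, ∃ g, h < (succ κ).ord → g < (succ κ).ord ∧
        ∀ β', g < β' → β' < (succ κ).ord → ¬ P h β' := by
      intro h
      by_cases hh : h < (succ κ).ord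
      · obtain ⟨g, h1, h2⟩ := hno h hh
        exact ⟨g, fun _ => ⟨h1, h2⟩⟩
      · exact ⟨0, fun h' => absurd h' hh⟩
    choose G hG using this
    obtain ⟨δ, hδ, _, hδc, hδG⟩ := exists_closed hκ.aleph0_le hκ le_rfl G
      (fun ζ hζ => (hG ζ hζ).1) h0
    obtain ⟨h, hh⟩ := hii δ hδ hδc
    exact (hG h (hh.1.trans hδ)).2 δ (hδG h hh.1) hδ hh
  obtain ⟨h, hh, hunb⟩ := hiii
  obtain ⟨γs, hγA, hγ⟩ := hA h hh
  have hγl : γs < (succ κ).ord := hγA.1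
  let T : Set Ordinal.{0} := {β' | γs < β' ∧ β' < (succ κ).ord ∧ P h β'}
  have hTu : ∀ g < (succ κ).ord, ∃ β' ∈ T, g < β' := by
    intro g hg
    obtain ⟨β', h1, h2, h3⟩ := hunb (max g γs) (max_lt hg hγl)
    exact ⟨β', ⟨(le_max_right _ _).trans_lt h1, h2, h3⟩, (le_max_left _ _).trans_lt h1⟩
  have hDf : ∀ β', ∃ D, β' ∈ T → Good β' D ∧ γs ∈ acc D ∧ D ∩ Iio γs = Cf γs := by
    intro β'
    by_cases hβ' : β' ∈ T
    · obtain ⟨D, hD⟩ := hβ'.2.2.2.1 γs hγA hγ.le hβ'.1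
      exact ⟨D, fun _ => hD⟩
    · exact ⟨∅, fun h' => absurd h' hβ'⟩
  choose Df hDf using hDf
  have hsub : ∀ (X : Set Ordinal.{0}) {a b : Ordinal.{0}}, a ≤ b → (X ∩ Iio b) ∩ Iio a = X ∩ Iio a := by
    intro X a b hab
    rw [inter_assoc, Iio_inter_Iio, min_eq_right hab]
  have hclub : ∀ β' ∈ T, ClubIn β' (Df β') := fun β' hβ' =>
    (hC1 β' hβ'.2.1).2.1 _ (hDf β' hβ').1.1
  have hcoh : ∀ β' ∈ T, ∀ β'' ∈ T, β' < β'' → Df β'' ∩ Iio β' = Df β' := by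
    intro β' hβ' β'' hβ'' hlt
    obtain ⟨hg, hg2, hg3⟩ := hDf β' hβ'
    obtain ⟨hg', hg2', hg3'⟩ := hDf β'' hβ''
    have hunb' : ∀ ξ < β', ∃ α, ξ < α ∧ α < β' ∧ Df β'' ∩ Iio α = Df β' ∩ Iio α := by
      intro ξ hξ
      obtain ⟨α, hα, h1, h2, h3, h4⟩ := hg.2 (max ξ γs) (max_lt hξ hβ'.1)
      have hξα : ξ < α := (le_max_left _ _).trans_lt h1
      have hγα : γs < α := (le_max_right _ _).trans_lt h1
      obtain ⟨D', hD', h5, h6⟩ := hβ''.2.2.2.1 α hα (hγ.le.trans hγα.le) (h2.trans hlt)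
      have hEq : D' = Df β'' := by
        apply hβ''.2.2.2.2 D' hD'.1 _ hg'.1
        have e1 : D' ∩ Iio h = Cf γs ∩ Iio h := by
          rw [← hg3, hsub _ hγ.le, ← hsub D' (hγ.le.trans hγα.le), h6, ← h4,
            hsub _ (hγ.le.trans hγα.le)]
        have e2 : Df β'' ∩ Iio h = Cf γs ∩ Iio h := by
          rw [← hg3', hsub _ hγ.le]
        rw [e1, e2]
      exact ⟨α, hξα, h2, by rw [← hEq, h6, h4]⟩
    ext x
    constructor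
    · rintro ⟨hx, hxβ⟩
      obtain ⟨α, h1, h2, h3⟩ := hunb' x hxβ
      exact ((Set.ext_iff.1 h3 x).1 ⟨hx, h1⟩).1
    · intro hx
      have hxβ : x < β' := (hclub β' hβ').1 hx
      obtain ⟨α, h1, h2, h3⟩ := hunb' x hxβ
      exact ⟨((Set.ext_iff.1 h3 x).2 ⟨hx, h1⟩).1, hxβ⟩
  let D : Set Ordinal.{0} := {x | ∃ β' ∈ T, x ∈ Df β'}
  have hDl : D ⊆ Iio (succ κ).ord := by
    rintro x ⟨β', hβ', hx⟩
    exact ((hclub β' hβ').1 hx).trans hβ'.2.1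
  have hDint : ∀ β' ∈ T, D ∩ Iio β' = Df β' := by
    intro β' hβ'
    ext x
    constructor
    · rintro ⟨⟨β'', hβ'', hx⟩, hxβ⟩
      rcases lt_trichotomy β' β'' with hlt | heq | hgt
      · rw [← hcoh β' hβ' β'' hβ'' hlt]
        exact ⟨hx, hxβ⟩
      · rw [heq]; exact hx
      · rw [← hcoh β'' hβ'' β' hβ' hgt] at hx
        exact hx.1
    · intro hx
      exact ⟨⟨β', hβ', hx⟩, (hclub β' hβ').1 hx⟩
  apply hT
  refine ⟨D, ?_, ?_⟩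
  · rw [clubIn_iff]
    refine ⟨hDl, fun ξ hξ => ?_, fun β hβ hβ0 hβlim => ?_⟩
    · obtain ⟨β', hβ', hlt⟩ := hTu ξ hξ
      obtain ⟨η, hη, hle⟩ := (clubIn_iff.1 (hclub β' hβ')).2.1 ξ hlt
      exact ⟨η, ⟨β', hβ', hη⟩, hle⟩
    · obtain ⟨β', hβ', hlt⟩ := hTu β hβ
      refine ⟨β', hβ', (clubIn_iff.1 (hclub β' hβ')).2.2 β hlt hβ0 fun ξ hξ => ?_⟩
      obtain ⟨η, hη, h1, h2⟩ := hβlim ξ hξ
      refine ⟨η, ?_, h1, h2⟩
      rw [← hDint β' hβ']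
      exact ⟨hη, h2.trans hlt⟩
  · intro α hα
    rw [mem_acc hDl] at hα
    obtain ⟨⟨x, hx, hle⟩, hαlim⟩ := hα
    have hαl : α < (succ κ).ord := lt_of_le_of_lt hle (hDl hx)
    obtain ⟨β', hβ', hlt⟩ := hTu α hαl
    have hαacc : α ∈ acc (Df β') := by
      rw [mem_acc (hclub β' hβ').1]
      refine ⟨?_, fun ξ hξ => ?_⟩
      · obtain ⟨η, hη, hle⟩ := (clubIn_iff.1 (hclub β' hβ')).2.1 α hlt
        exact ⟨η, hη, hle⟩
      · obtain ⟨η, hη, h1, h2⟩ := hαlim ξ hξ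
        refine ⟨η, ?_, h1, h2⟩
        rw [← hDint β' hβ']
        exact ⟨hη, h2.trans hlt⟩
    have := hC2 β' hβ'.2.1 (Df β') (hDf β' hβ').1.1 α hαacc
    rw [← hDint β' hβ', hsub _ hlt.le] at this
    exact this

end Pool.Agent.Helper97.Csq
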