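import Pool.Agent.Helper97.Csq.Step1

namespace Pool.Agent.Helper97.Csq

open Cardinal Ordinal Set Order

/-- `u = (α, C)` is the root of `D` above `γ₀`: `α` is the first accumulation point of `D` above
`γ₀`, and `C = D ∩ α`. -/
def Root (γ₀ : Ordinal.{0}) (D : Set Ordinal.{0}) (u : Ordinal.{0} × Set Ordinal.{0}) : Prop :=
  u.1 ∈ acc D ∧ γ₀ < u.1 ∧ (∀ α ∈ acc D, γ₀ < α → u.1 ≤ α) ∧ D ∩ Iio u.1 = u.2

theorem Root.unique {γ₀ : Ordinal.{0}} {D : Set Ordinal.{0}} {u v : Ordinal.{0} × Set Ordinal.{0}}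
    (hu : Root γ₀ D u) (hv : Root γ₀ D v) : u = v := by
  have h1 : u.1 = v.1 := le_antisymm (hu.2.2.1 _ hv.1 hv.2.1) (hv.2.2.1 _ hu.1 hu.2.1)
  refine Prod.ext h1 ?_
  rw [← hu.2.2.2, ← hv.2.2.2, h1]

/-- Step 2: the roots can be coloured with `κ` colours, so that for every colour there are
stationarily many `β ∈ S` for which `𝒞 β` has no root of that colour. -/
theorem step2 {κ : Cardinal.{0}} {𝒞 : Ordinal.{0} → Set (Set Ordinal.{0})}
    (hκ : κ.IsRegular) (hκ0 : ℵ₀ < κ)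
    (hC : Coherent (succ κ).ord (Cardinal.lift.{1} κ) 𝒞)
    {S : Set Ordinal.{0}} (hS : StatIn (succ κ).ord S) {γ₀ : Ordinal.{0}}
    (hγ₀ : γ₀ < (succ κ).ord)
    (h1 : ∀ α, γ₀ < α → α < (succ κ).ord → ∀ C ∈ 𝒞 α,
      StatIn (succ κ).ord {β | β ∈ S ∧ ¬ ∃ D ∈ 𝒞 β, α ∈ acc D ∧ D ∩ Iio α = C}) :
    ∃ c : Ordinal.{0} × Set Ordinal.{0} → κ.ord.ToType, ∀ i,
      StatIn (succ κ).ord {β | β ∈ S ∧ ¬ ∃ D ∈ 𝒞 β, ∃ u, Root γ₀ D u ∧ c u = i} := by
  classical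
  have hreg : (succ κ).IsRegular := isRegular_succ hκ.aleph0_le
  have hcof : (succ κ).ord.cof = succ κ := hreg.cof_ord
  have hlim := succ_lt_of_cof (δ := (succ κ).ord) (by rw [hcof]; exact hreg.aleph0_le)
  have hSl : S ⊆ Iio (succ κ).ord := hS.1
  obtain ⟨hC1, hC2⟩ := hC
  by_contra hcon
  push Not at hcon
  -- the same for any index type of size at most `κ`
  have hcon' : ∀ (ι : Type) (_ : #ι ≤ κ) (c : Ordinal.{0} × Set Ordinal.{0} → ι), ∃ i,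
      ¬ StatIn (succ κ).ord {β | β ∈ S ∧ ¬ ∃ D ∈ 𝒞 β, ∃ u, Root γ₀ D u ∧ c u = i} := by
    intro ι hι c
    have : Nonempty (ι ↪ κ.ord.ToType) := by
      rw [← Cardinal.le_def, Cardinal.mk_ord_toType]
      exact hι
    obtain ⟨f⟩ := this
    obtain ⟨j, hj⟩ := hcon (fun u => f (c u))
    by_cases hr : ∃ i, f i = j
    · obtain ⟨i, rfl⟩ := hr
      refine ⟨i, fun hst => hj ?_⟩
      refine hst.mono ?_ (fun β hβ => hSl hβ.1)
      rintro β ⟨hβ, hno⟩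
      refine ⟨hβ, fun D hD u hu hc => hno ⟨D, hD, u, hu, f.injective hc⟩⟩
    · exfalso
      apply hj
      refine hS.mono (fun β hβ => ⟨hβ, fun D hD u hu hc => hr ⟨_, hc⟩⟩) (fun β hβ => hSl hβ.1)
  -- injections
  have he : ∀ α : Ordinal.{0}, ∃ e : Ordinal.{0} → κ.ord.ToType, α < (succ κ).ord →
      ∀ x < α, ∀ y < α, e x = e y → x = y := by
    intro α
    by_cases hα : α < (succ κ).ord
    · have : Nonempty (Iio α ↪ κ.ord.ToType) := by
        rw [← Cardinal.lift_mk_le'.{1, 0}, Cardinal.mk_ord_toType]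
        simpa using mk_Iio_le hα
      obtain ⟨f⟩ := this
      have hne : Nonempty κ.ord.ToType := by
        rw [← Cardinal.mk_ne_zero_iff, Cardinal.mk_ord_toType]
        exact (lt_trans Cardinal.aleph0_pos hκ0).ne'
      obtain ⟨z⟩ := hne
      refine ⟨fun x => if hx : x < α then f ⟨x, hx⟩ else z, fun _ x hx y hy hxy => ?_⟩
      simp only [dif_pos hx, dif_pos hy] at hxy
      exact congrArg Subtype.val (f.injective hxy)
    · have hne : Nonempty κ.ord.ToType := by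
        rw [← Cardinal.mk_ne_zero_iff, Cardinal.mk_ord_toType]
        exact (lt_trans Cardinal.aleph0_pos hκ0).ne'
      obtain ⟨z⟩ := hne
      exact ⟨fun _ => z, fun h => absurd h hα⟩
  choose e he using he
  have hj : ∀ α : Ordinal.{0}, ∃ j : Set Ordinal.{0} → κ.ord.ToType, α < (succ κ).ord →
      ∀ x ∈ 𝒞 α, ∀ y ∈ 𝒞 α, j x = j y → x = y := by
    intro α
    have hne : Nonempty κ.ord.ToType := by
      rw [← Cardinal.mk_ne_zero_iff, Cardinal.mk_ord_toType]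
      exact (lt_trans Cardinal.aleph0_pos hκ0).ne'
    obtain ⟨z⟩ := hne
    by_cases hα : α < (succ κ).ord
    · have : Nonempty (𝒞 α ↪ κ.ord.ToType) := by
        rw [← Cardinal.lift_mk_le'.{1, 0}, Cardinal.mk_ord_toType]
        simpa using (hC1 α hα).2.2.le
      obtain ⟨f⟩ := this
      refine ⟨fun x => if hx : x ∈ 𝒞 α then f ⟨x, hx⟩ else z, fun _ x hx y hy hxy => ?_⟩
      simp only [dif_pos hx, dif_pos hy] at hxy
      exact congrArg Subtype.val (f.injective hxy)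
    · exact ⟨fun _ => z, fun h => absurd h hα⟩
  choose j hj using hj
  -- facts on roots
  have hroot : ∀ β ∈ S, ∀ D ∈ 𝒞 β, ∀ u, Root γ₀ D u → u.1 < (succ κ).ord ∧ u.2 ∈ 𝒞 u.1 := by
    intro β hβ D hD u hu
    have hβl : β < (succ κ).ord := hSl hβ
    have hDcl := (hC1 β hβl).2.1 D hD
    obtain ⟨⟨x, hx, hle⟩, _⟩ := (mem_acc hDcl.1).1 hu.1
    refine ⟨lt_of_le_of_lt hle ((hDcl.1 hx).trans hβl), ?_⟩
    rw [← hu.2.2.2]
    exact hC2 β hβl D hD _ hu.1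
  -- for every `η` some class is not small
  have hη : ∀ η < (succ κ).ord, ∃ ξ : κ.ord.ToType, ∃ E, ClubIn (succ κ).ord E ∧
      ∀ β ∈ S, β ∈ E → ∃ D ∈ 𝒞 β, ∃ u, Root γ₀ D u ∧ η < u.1 ∧ e u.1 η = ξ := by
    intro η hη
    let c : Ordinal.{0} × Set Ordinal.{0} → κ.ord.ToType ⊕ (κ.ord.ToType × κ.ord.ToType) :=
      fun u => if η < u.1 then Sum.inl (e u.1 η) else Sum.inr (e (η + 1) u.1, j u.1 u.2)
    obtain ⟨i, hi⟩ := hcon' (κ.ord.ToType ⊕ (κ.ord.ToType × κ.ord.ToType)) (by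
      rw [Cardinal.mk_sum, Cardinal.mk_prod, Cardinal.mk_ord_toType, Cardinal.lift_id,
        Cardinal.lift_id, Cardinal.mul_eq_self hκ.aleph0_le, Cardinal.add_eq_self hκ.aleph0_le]) c
    obtain ⟨E, hE1, hE2⟩ := exists_club_of_not_stat (fun β hβ => hSl hβ.1) hi
    have hE3 : ∀ β ∈ S, β ∈ E → ∃ D ∈ 𝒞 β, ∃ u, Root γ₀ D u ∧ c u = i := by
      intro β hβ hβE
      by_contra hno
      exact hE2 β ⟨hβ, hno⟩ hβE
    match i, hE3 with
    | Sum.inl ξ, hE3 =>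
      refine ⟨ξ, E, hE1, fun β hβ hβE => ?_⟩
      obtain ⟨D, hD, u, hu, hcu⟩ := hE3 β hβ hβE
      by_cases hlt : η < u.1
      · refine ⟨D, hD, u, hu, hlt, ?_⟩
        simp only [c, if_pos hlt, Sum.inl.injEq] at hcu
        exact hcu
      · simp [c, if_neg hlt] at hcu
    | Sum.inr (a, b), hE3 =>
      exfalso
      -- the class is at most a singleton
      have hsing : ∀ β ∈ S, β ∈ E → ∃ D ∈ 𝒞 β, ∃ u, Root γ₀ D u ∧ u.1 ≤ η ∧
          e (η + 1) u.1 = a ∧ j u.1 u.2 = b := by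
        intro β hβ hβE
        obtain ⟨D, hD, u, hu, hcu⟩ := hE3 β hβ hβE
        by_cases hlt : η < u.1
        · simp [c, if_pos hlt] at hcu
        · refine ⟨D, hD, u, hu, not_lt.1 hlt, ?_⟩
          simpa [c, if_neg hlt] using hcu
      obtain ⟨β, hβS, hβE⟩ := (statIn_iff.1 hS).2 E hE1
      obtain ⟨D, hD, u, hu, hu1, hu2, hu3⟩ := hsing β hβS hβE
      obtain ⟨hul, huC⟩ := hroot β hβS D hD u hu
      obtain ⟨β', hβ', hβE'⟩ := (statIn_iff.1 (h1 u.1 hu.2.1 hul u.2 huC)).2 E hE1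
      obtain ⟨D', hD', v, hv, hv1, hv2, hv3⟩ := hsing β' hβ'.1 hβE'
      obtain ⟨hvl, hvC⟩ := hroot β' hβ'.1 D' hD' v hv
      have e1 : v.1 = u.1 := he (η + 1) (hlim _ hη) v.1 (Order.lt_add_one_iff.2 hv1) u.1
        (Order.lt_add_one_iff.2 hu1) (hv2.trans hu2.symm)
      have e2 : v.2 = u.2 := by
        apply hj u.1 hul v.2 (e1 ▸ hvC) u.2 huC
        rw [← e1]
        rw [e1, hu3, ← hv3, e1]
      exact hβ'.2 ⟨D', hD', e1 ▸ hv.1, by rw [← e1, hv.2.2.2, e2]⟩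
  -- choose `ξ` for every `η`
  have hξ : ∀ η : Iio (succ κ).ord, ∃ ξ : κ.ord.ToType, ∃ E, ClubIn (succ κ).ord E ∧
      ∀ β ∈ S, β ∈ E → ∃ D ∈ 𝒞 β, ∃ u, Root γ₀ D u ∧ η.1 < u.1 ∧ e u.1 η.1 = ξ :=
    fun η => hη η.1 η.2
  choose ξ E hE1 hE2 using hξ
  -- pigeonhole
  have hpig : ∃ ξ₀, Cardinal.lift.{1} κ ≤ #({η : Iio (succ κ).ord | ξ η = ξ₀}) := by
    by_contra hno
    push Not at hno
    have : ∀ ξ₀, ∃ b : Iio (succ κ).ord, ∀ η : Iio (succ κ).ord, ξ η = ξ₀ → η.1 ≤ b.1 := by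
      intro ξ₀
      obtain ⟨h, hh1, hh2⟩ := bnd (ι := {η : Iio (succ κ).ord | ξ η = ξ₀}) (fun η => η.1.1)
        (succ κ).ord (by
          rw [hcof]
          exact (hno ξ₀).trans (by rw [Cardinal.lift_lt]; exact Order.lt_succ κ)) (fun η => η.1.2)
      exact ⟨⟨h, hh1⟩, fun η hη => hh2 ⟨η, hη⟩⟩
    choose b hb using this
    obtain ⟨h, hh1, hh2⟩ := bnd (ι := ULift.{1} κ.ord.ToType) (fun x => (b x.down).1)
      (succ κ).ord (by
        rw [hcof, Cardinal.mk_uLift, Cardinal.mk_ord_toType, Cardinal.lift_lt]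
        exact Order.lt_succ κ) (fun x => (b x.down).2)
    have h3 := hb (ξ ⟨h + 1, hlim h hh1⟩) ⟨h + 1, hlim h hh1⟩ rfl
    have h4 := h3.trans (hh2 ⟨ξ ⟨h + 1, hlim h hh1⟩⟩)
    exact absurd h4 (not_le.2 (Order.lt_add_one_iff.2 le_rfl))
  obtain ⟨ξ₀, hξ₀⟩ := hpig
  obtain ⟨Y, hYsub, hYcard⟩ := Cardinal.le_mk_iff_exists_subset.1 hξ₀
  obtain ⟨β, hβ, _, hβE⟩ := hS.exists_inter hκ.aleph0_le (ι := Y) hYcard.le (fun η => E η.1)
    (fun η => hE1 η.1) hγ₀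
  have hch : ∀ η : Y, ∃ D : 𝒞 β, ∃ u, Root γ₀ D.1 u ∧ η.1.1 < u.1 ∧ e u.1 η.1.1 = ξ₀ ∧
      u.1 < (succ κ).ord := by
    intro η
    obtain ⟨D, hD, u, hu, h2, h3⟩ := hE2 η.1 β hβ (hβE η)
    exact ⟨⟨D, hD⟩, u, hu, h2, h3.trans (hYsub η.2), (hroot β hβ D hD u hu).1⟩
  choose Df uf hf1 hf2 hf3 hf4 using hch
  have hinj : Function.Injective Df := by
    intro η η' heq
    have hu : uf η = uf η' := (hf1 η).unique (heq ▸ hf1 η')
    have h2 := hf2 η'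
    rw [← hu] at h2
    have h3 := hf3 η'
    rw [← hu] at h3
    have := he (uf η).1 (hf4 η) η.1.1 (hf2 η) η'.1.1 h2 ((hf3 η).trans h3.symm)
    exact Subtype.ext (Subtype.ext this)
  have := Cardinal.mk_le_of_injective hinj
  rw [hYcard] at this
  exact absurd this (not_le.2 (hC1 β (hSl hβ)).2.2)

end Pool.Agent.Helper97.Csq
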