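import Pool.Agent.Helper97.Csq.Step2

namespace Pool.Agent.Helper97.Csq

open Cardinal Ordinal Set Order

/-- The general theorem: for `κ` regular uncountable, `□(κ⁺, < κ)` refutes `Refl(< κ, S)` for every
stationary `S ⊆ κ⁺`. -/
theorem not_refl {κ : Cardinal.{0}} (hκ : κ.IsRegular) (hκ0 : ℵ₀ < κ)
    (hsq : Square (succ κ).ord (Cardinal.lift.{1} κ)) {S : Set Ordinal.{0}}
    (hS : StatIn (succ κ).ord S) : ¬ Refl (succ κ).ord (Cardinal.lift.{1} κ) S := by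
  classical
  intro hR
  obtain ⟨𝒞, hC, hT⟩ := hsq
  have hreg : (succ κ).IsRegular := isRegular_succ hκ.aleph0_le
  have hcof : (succ κ).ord.cof = succ κ := hreg.cof_ord
  have hSl : S ⊆ Iio (succ κ).ord := hS.1
  obtain ⟨γ₀, hγ₀, h1⟩ := step1 hκ hκ0 hC hT hS
  obtain ⟨c, hc⟩ := step2 hκ hκ0 hC hS hγ₀ h1
  obtain ⟨hC1, hC2⟩ := hC
  -- freeze the colours
  have hne : Nonempty κ.ord.ToType := by
    rw [← Cardinal.mk_ne_zero_iff, Cardinal.mk_ord_toType]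
    exact (lt_trans Cardinal.aleph0_pos hκ0).ne'
  have hfr : ∃ ξ : κ.ord.ToType, StatIn (succ κ).ord
      {β | β ∈ S ∧ γ₀ < β ∧ ∀ D ∈ 𝒞 β, ∀ u, Root γ₀ D u → c u < ξ} := by
    by_contra hno
    push Not at hno
    have : ∀ ξ : κ.ord.ToType, ∃ E, ClubIn (succ κ).ord E ∧ ∀ β ∈ {β | β ∈ S ∧ γ₀ < β ∧
        ∀ D ∈ 𝒞 β, ∀ u, Root γ₀ D u → c u < ξ}, β ∉ E :=
      fun ξ => exists_club_of_not_stat (fun β hβ => hSl hβ.1) (hno ξ)
    choose E hE1 hE2 using this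
    obtain ⟨β, hβ, hγβ, hβE⟩ := hS.exists_inter hκ.aleph0_le (ι := ULift.{1} κ.ord.ToType) (by
      rw [Cardinal.mk_uLift, Cardinal.mk_ord_toType]) (fun x => E x.down) (fun x => hE1 x.down) hγ₀
    -- the colours of the roots at `β` are bounded
    have hb : ∃ ξ : κ.ord.ToType, ∀ D ∈ 𝒞 β, ∀ u, Root γ₀ D u → c u < ξ := by
      have hns : ¬ IsCofinal {x : κ.ord.ToType | ∃ D ∈ 𝒞 β, ∃ u, Root γ₀ D u ∧ c u = x} := by
        intro hcf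
        have hle := Order.cof_le hcf
        rw [Ordinal.cof_toType, hκ.cof_ord] at hle
        have hlt : Cardinal.lift.{1} #{x : κ.ord.ToType | ∃ D ∈ 𝒞 β, ∃ u, Root γ₀ D u ∧ c u = x} ≤
            #(𝒞 β) := by
          have : ∀ x : {x : κ.ord.ToType | ∃ D ∈ 𝒞 β, ∃ u, Root γ₀ D u ∧ c u = x},
              ∃ D : 𝒞 β, ∃ u, Root γ₀ D.1 u ∧ c u = x.1 := by
            rintro ⟨x, D, hD, u, hu, hx⟩
            exact ⟨⟨D, hD⟩, u, hu, hx⟩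
          choose g u hu1 hu2 using this
          have hinj : Function.Injective g := by
            intro x y hxy
            have h5 : u x = u y := (hu1 x).unique (hxy ▸ hu1 y)
            exact Subtype.ext (by rw [← hu2 x, ← hu2 y, h5])
          simpa using Cardinal.mk_le_of_injective (f := fun x : ULift.{1} _ => g x.down)
            (hinj.comp ULift.down_injective)
        have h3 : Cardinal.lift.{1} κ ≤ #(𝒞 β) := le_trans (Cardinal.lift_le.2 hle) hlt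
        exact absurd h3 (not_le.2 (hC1 β (hSl hβ)).2.2)
      obtain ⟨ξ, hξ⟩ := not_isCofinal_iff.1 hns
      exact ⟨ξ, fun D hD u hu => hξ _ ⟨D, hD, u, hu, rfl⟩⟩
    obtain ⟨ξ, hξ⟩ := hb
    exact hE2 ξ β ⟨hβ, hγβ, hξ⟩ (hβE ⟨ξ⟩)
  obtain ⟨ξ, hξ⟩ := hfr
  -- the family
  let X : Set Ordinal.{0} := {β | β ∈ S ∧ γ₀ < β ∧ ∀ D ∈ 𝒞 β, ∀ u, Root γ₀ D u → c u < ξ}
  let R : κ.ord.ToType → Set Ordinal.{0} := fun i =>
    {β | β ∈ S ∧ ¬ ∃ D ∈ 𝒞 β, ∃ u, Root γ₀ D u ∧ c u = i}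
  let F : Set (Set Ordinal.{0}) := insert X (R '' (Iio ξ))
  have hF : #F < Cardinal.lift.{1} κ := by
    have h2 : #(R '' (Iio ξ)) < Cardinal.lift.{1} κ := by
      have h3 : Cardinal.lift.{0} #(R '' (Iio ξ)) ≤ Cardinal.lift.{1} #(Iio ξ) :=
        Cardinal.mk_image_le_lift
      rw [Cardinal.lift_uzero] at h3
      refine lt_of_le_of_lt h3 ?_
      rw [Cardinal.lift_lt]
      exact Cardinal.mk_Iio_toType_ord_lt ξ
    calc #F ≤ #(R '' (Iio ξ)) + 1 := Cardinal.mk_insert_le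
      _ < Cardinal.lift.{1} κ := Cardinal.add_lt_of_lt (by
          rw [Cardinal.aleph0_le_lift]; exact hκ0.le) h2 (by
          rw [← Cardinal.lift_one.{0, 1}, Cardinal.lift_lt]
          exact lt_trans Cardinal.one_lt_aleph0 hκ0)
  obtain ⟨δ, hδ, hδc, hδF⟩ := hR F hF (by
    intro Y hY
    rcases hY with rfl | ⟨i, _, rfl⟩
    · exact ⟨fun β hβ => hβ.1, hξ⟩
    · exact ⟨fun β hβ => hβ.1, hc i⟩)
  obtain ⟨hCne, hCcl, _⟩ := hC1 δ hδ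
  obtain ⟨E, hE⟩ := hCne
  have hEcl := hCcl E hE
  have hXδ := hδF X (mem_insert _ _)
  have hδpos : 0 < δ := by
    rw [← Ordinal.cof_pos]
    exact lt_trans Cardinal.aleph0_pos hδc
  have hγδ : γ₀ < δ := by
    obtain ⟨β, hβ, _, _, hβδ⟩ := hXδ.exists_acc hδc hEcl hδpos
    exact hβ.1.2.1.trans hβδ
  -- the root of `E`
  have hexr : ∃ u, Root γ₀ E u ∧ u.1 < δ ∧ γ₀ < u.1 := by
    have hne2 : ({α | α ∈ acc E ∧ γ₀ < α} : Set Ordinal.{0}).Nonempty := by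
      obtain ⟨β, _, hβ, hβγ, _⟩ := hXδ.exists_acc hδc hEcl hγδ
      exact ⟨β, hβ, hβγ⟩
    have hmin := csInf_mem hne2
    have hlow : ∀ α ∈ acc E, γ₀ < α → sInf {α | α ∈ acc E ∧ γ₀ < α} ≤ α :=
      fun α hα h => csInf_le' ⟨hα, h⟩
    refine ⟨(sInf {α | α ∈ acc E ∧ γ₀ < α}, E ∩ Iio (sInf {α | α ∈ acc E ∧ γ₀ < α})),
      ⟨hmin.1, hmin.2, hlow, rfl⟩, ?_, hmin.2⟩
    obtain ⟨β, _, hβ, hβγ, hβδ⟩ := hXδ.exists_acc hδc hEcl hγδ
    exact lt_of_le_of_lt (hlow β hβ hβγ) hβδ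
  obtain ⟨u, hu, huδ, hγu⟩ := hexr
  -- it is the root of `E ∩ β` for `β ∈ acc E` above it
  have hpass : ∀ β ∈ acc E, u.1 < β → Root γ₀ (E ∩ Iio β) u := by
    intro β hβ hlt
    refine ⟨(acc_inter_Iio hEcl.1 hβ).2 ⟨hu.1, hlt⟩, hu.2.1, fun α hα h => ?_, ?_⟩
    · exact hu.2.2.1 α ((acc_inter_Iio hEcl.1 hβ).1 hα).1 h
    · rw [inter_assoc, Iio_inter_Iio, min_eq_right hlt.le, hu.2.2.2]
  obtain ⟨β, hβX, hβE, hβu, hβδ⟩ := hXδ.exists_acc hδc hEcl huδ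
  have hcu : c u < ξ := hβX.1.2.2 _ (hC2 δ hδ E hE β hβE) u (hpass β hβE hβu)
  have hRδ := hδF (R (c u)) (mem_insert_of_mem _ ⟨c u, hcu, rfl⟩)
  obtain ⟨β', hβR, hβE', hβu', hβδ'⟩ := hRδ.exists_acc hδc hEcl huδ
  exact hβR.1.2 ⟨_, hC2 δ hδ E hE β' hβE', u, hpass β' hβE' hβu', rfl⟩

/-- Stationarity of `{α < κ⁺ | cof α = μ}` for `μ ≤ κ` regular. -/
theorem statIn_cof {κ μ : Cardinal.{0}} (hκ : ℵ₀ ≤ κ) (hμ : μ.IsRegular) (hμκ : μ ≤ κ) :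
    StatIn (succ κ).ord {α | α < (succ κ).ord ∧ α.cof = μ} := by
  classical
  have hreg : (succ κ).IsRegular := isRegular_succ hκ
  have hcof : (succ κ).ord.cof = succ κ := hreg.cof_ord
  have hlim := succ_lt_of_cof (δ := (succ κ).ord) (by rw [hcof]; exact hreg.aleph0_le)
  rw [statIn_iff]
  refine ⟨fun β hβ => hβ.1, fun E hE => ?_⟩
  rw [clubIn_iff] at hE
  obtain ⟨h1, h2, h3⟩ := hE
  have h0 : (0 : Ordinal.{0}) < (succ κ).ord := by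
    rw [Cardinal.lt_ord, Ordinal.card_zero]
    exact lt_of_lt_of_le Cardinal.aleph0_pos hreg.aleph0_le
  have hG : ∀ ζ, ∃ g, ζ < (succ κ).ord → g ∈ E ∧ ζ + 1 ≤ g := by
    intro ζ
    by_cases hζ : ζ < (succ κ).ord
    · obtain ⟨g, hg1, hg2⟩ := h2 (ζ + 1) (hlim ζ hζ)
      exact ⟨g, fun _ => ⟨hg1, hg2⟩⟩
    · exact ⟨0, fun h => absurd h hζ⟩
  choose G hG using hG
  obtain ⟨δ, hδ, hδ0, hδc, hδG⟩ := exists_closed hκ hμ hμκ G (fun ζ hζ => h1 (hG ζ hζ).1) h0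
  refine ⟨δ, ⟨hδ, hδc⟩, h3 δ hδ hδ0.ne' fun ξ hξ => ?_⟩
  exact ⟨G ξ, (hG ξ (hξ.trans hδ)).1, lt_of_lt_of_le (Order.lt_add_one_iff.2 le_rfl)
    (hG ξ (hξ.trans hδ)).2, hδG ξ hξ⟩

end Pool.Agent.Helper97.Csq
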